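import Pool.Agent.W682.TW.Stm

/-!
# TW-POS: positive definiteness of the wells
-/

set_option autoImplicit false

open scoped BigOperators

namespace Pool.Agent.W160.TW.Pos

open Pool.Agent.W682.TW

variable {n m : ℕ}

/-! ### linear functionals and quadratic forms -/

def IsL (f : Mt m → ℝ) : Prop := ∃ l : Mt m →ₗ[ℝ] ℝ, ∀ F, f F = l F

def IsQ (q : Mt m → ℝ) : Prop :=
  ∃ B : Mt m →ₗ[ℝ] Mt m →ₗ[ℝ] ℝ, (∀ X Y, B X Y = B Y X) ∧ ∀ F, q F = B F F

theorem IsL.entry (i : Fin 2) (j : Fin m) : IsL fun F : Mt m => F i j :=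
  ⟨{ toFun := fun F => F i j, map_add' := fun _ _ => rfl, map_smul' := fun _ _ => rfl },
    fun _ => rfl⟩

theorem IsL.add {f g : Mt m → ℝ} (hf : IsL f) (hg : IsL g) : IsL fun F => f F + g F := by
  obtain ⟨a, ha⟩ := hf
  obtain ⟨b, hb⟩ := hg
  exact ⟨a + b, fun F => by show f F + g F = _; rw [ha, hb]; rfl⟩

theorem IsL.cmul {f : Mt m → ℝ} (c : ℝ) (hf : IsL f) : IsL fun F => c * f F := by
  obtain ⟨a, ha⟩ := hf
  exact ⟨c • a, fun F => by show c * f F = _; rw [ha]; rfl⟩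

theorem IsL.sum {ι : Type} (s : Finset ι) {f : ι → Mt m → ℝ} (hf : ∀ i ∈ s, IsL (f i)) :
    IsL fun F => ∑ i ∈ s, f i F := by
  classical
  induction s using Finset.induction_on with
  | empty => exact ⟨0, fun F => by simp⟩
  | insert a s ha ih =>
    obtain ⟨l, hl⟩ := (hf a (Finset.mem_insert_self _ _)).add
      (ih fun i hi => hf i (Finset.mem_insert_of_mem hi))
    exact ⟨l, fun F => by rw [← hl]; exact Finset.sum_insert ha⟩

theorem IsQ.mul {f g : Mt m → ℝ} (hf : IsL f) (hg : IsL g) : IsQ fun F => f F * g F := by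
  obtain ⟨a, ha⟩ := hf
  obtain ⟨b, hb⟩ := hg
  refine ⟨(1 / 2 : ℝ) • (a.smulRight b + b.smulRight a), fun X Y => ?_, fun F => ?_⟩
  · simp only [LinearMap.smul_apply, LinearMap.add_apply, LinearMap.smulRight_apply, smul_eq_mul]
    ring
  · show f F * g F = _
    rw [ha, hb]
    simp only [LinearMap.smul_apply, LinearMap.add_apply, LinearMap.smulRight_apply, smul_eq_mul]
    ring

theorem IsQ.add {f g : Mt m → ℝ} (hf : IsQ f) (hg : IsQ g) : IsQ fun F => f F + g F := by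
  obtain ⟨a, ha, ha'⟩ := hf
  obtain ⟨b, hb, hb'⟩ := hg
  refine ⟨a + b, fun X Y => ?_, fun F => by show f F + g F = _; rw [ha', hb']; rfl⟩
  rw [LinearMap.add_apply, LinearMap.add_apply, LinearMap.add_apply, LinearMap.add_apply, ha, hb]

theorem IsQ.cmul {f : Mt m → ℝ} (c : ℝ) (hf : IsQ f) : IsQ fun F => c * f F := by
  obtain ⟨a, ha, ha'⟩ := hf
  refine ⟨c • a, fun X Y => ?_, fun F => by show c * f F = _; rw [ha']; rfl⟩
  rw [LinearMap.smul_apply, LinearMap.smul_apply, LinearMap.smul_apply, LinearMap.smul_apply, ha]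

theorem IsQ.sum {ι : Type} (s : Finset ι) {f : ι → Mt m → ℝ} (hf : ∀ i ∈ s, IsQ (f i)) :
    IsQ fun F => ∑ i ∈ s, f i F := by
  classical
  induction s using Finset.induction_on with
  | empty => exact ⟨0, fun X Y => by simp, fun F => by simp⟩
  | insert a s ha ih =>
    obtain ⟨l, hl, hl'⟩ := (hf a (Finset.mem_insert_self _ _)).add
      (ih fun i hi => hf i (Finset.mem_insert_of_mem hi))
    exact ⟨l, hl, fun F => by rw [← hl']; exact Finset.sum_insert ha⟩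

theorem IsL.congr {f g : Mt m → ℝ} (hf : IsL f) (h : ∀ F, g F = f F) : IsL g := by
  obtain ⟨a, ha⟩ := hf
  exact ⟨a, fun F => by rw [h, ha]⟩

theorem IsQ.congr {f g : Mt m → ℝ} (hf : IsQ f) (h : ∀ F, g F = f F) : IsQ g := by
  obtain ⟨a, ha, ha'⟩ := hf
  exact ⟨a, ha, fun F => by rw [h, ha']⟩

theorem isL_Gc (e : Ix n ≃ Fin m) (ι : Ix n) : IsL fun F => Gc e F ι := by
  refine (((IsL.entry 0 (e ι)).cmul (kr n ι 0 / ip (kr n ι) (kr n ι))).add
    ((IsL.entry 1 (e ι)).cmul (kr n ι 1 / ip (kr n ι) (kr n ι)))).congr fun F => ?_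
  unfold Gc
  simp only [ip, col]
  ring

theorem isL_Oc (e : Ix n ≃ Fin m) (ι : Ix n) : IsL fun F => Oc e F ι := by
  refine (((IsL.entry 1 (e ι)).cmul (kr n ι 0 / ip (kr n ι) (kr n ι))).add
    ((IsL.entry 0 (e ι)).cmul (-(kr n ι 1) / ip (kr n ι) (kr n ι)))).congr fun F => ?_
  unfold Oc
  simp only [ip, dt, col]
  ring

theorem isL_th (e : Ix n ≃ Fin m) : IsL fun F => (st e F).1 :=
  (IsL.sum _ fun _ _ => isL_Gc e _).add (IsL.sum _ fun _ _ => isL_Gc e _)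

theorem isQ_NN (e : Ix n ≃ Fin m) (c : ℝ) : IsQ fun F => NN e c F := by
  unfold NN
  refine IsQ.cmul (-c) (IsQ.sum _ fun ι _ => IsQ.sum _ fun κ _ => ?_)
  refine (((IsQ.mul (IsL.entry 0 (e (za n ι))) (IsL.entry 1 (e (za n κ)))).cmul
    (1 / dt (kr n (za n ι)) (kr n (za n κ)))).add
    ((IsQ.mul (IsL.entry 1 (e (za n ι))) (IsL.entry 0 (e (za n κ)))).cmul
    (-1 / dt (kr n (za n ι)) (kr n (za n κ))))).congr fun F => ?_
  simp only [dt, col]
  ring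

/-- the quadratic part -/
noncomputable def qd (e : Ix n ≃ Fin m) (σ : ℕ → ℝ) (Λ k c χ : ℝ) (F : Mt m) : ℝ :=
  Λ * ((st e F).1 * (st e F).1) + χ * pf n σ (st e F).2.1 (st e F).2.2 + 6 * W682.TW.sq (st e F).2.1 +
    6 * W682.TW.sq (st e F).2.2 + k * SO e F + NN e c F

theorem isQ_qd (e : Ix n ≃ Fin m) (σ : ℕ → ℝ) (Λ k c χ : ℝ) : IsQ (qd e σ Λ k c χ) := by
  have h1 : IsQ fun F : Mt m => pf n σ (st e F).2.1 (st e F).2.2 := by
    unfold pf
    refine IsQ.sum _ fun i _ => IsQ.sum _ fun j _ => ?_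
    exact IsQ.mul ((isL_Gc e (.inr (.inl i))).cmul (σ (i.val + j.val))) (isL_Gc e (.inr (.inr j)))
  have h2 : IsQ fun F : Mt m => W682.TW.sq (st e F).2.1 := by
    unfold W682.TW.sq
    refine IsQ.sum _ fun i _ => (IsQ.mul (isL_Gc e (.inr (.inl i)))
      (isL_Gc e (.inr (.inl i)))).congr fun F => ?_
    rw [← pow_two]
    rfl
  have h3 : IsQ fun F : Mt m => W682.TW.sq (st e F).2.2 := by
    unfold W682.TW.sq
    refine IsQ.sum _ fun i _ => (IsQ.mul (isL_Gc e (.inr (.inr i)))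
      (isL_Gc e (.inr (.inr i)))).congr fun F => ?_
    rw [← pow_two]
    rfl
  have h4 : IsQ fun F : Mt m => SO e F := by
    unfold SO
    refine IsQ.sum _ fun i _ => (IsQ.mul (isL_Oc e i) (isL_Oc e i)).congr fun F => ?_
    rw [← pow_two]
  exact ((((((IsQ.mul (isL_th e) (isL_th e)).cmul Λ).add (h1.cmul χ)).add (h2.cmul 6)).add
    (h3.cmul 6)).add (h4.cmul k)).add (isQ_NN e c)

theorem wm_eq (e : Ix n ≃ Fin m) (σ : ℕ → ℝ) (Λ k c χ : ℝ) (F : Mt m) :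
    Wm e σ Λ k c χ F = qd e σ Λ k c χ F + (-(2 * Λ * χ)) * (st e F).1 + Λ * χ ^ 2 := by
  unfold Wm wx qd
  ring

/-! ### the wave vectors -/

theorem ipk_pos (ι : Ix n) : 0 < ip (kr n ι) (kr n ι) := by
  unfold ip
  have h : kr n ι 0 ≠ 0 ∨ kr n ι 1 ≠ 0 := by
    rcases ι with (z | s) | (i | j)
    · right
      simp [kr, kv]
    · left
      simp only [kr, kv, Matrix.cons_val_zero]
      positivity
    · left
      simp [kr, kv]
    · left
      simp only [kr, kv, Matrix.cons_val_zero]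
      positivity
  rcases h with h | h
  · have := mul_self_pos.2 h
    nlinarith [mul_self_nonneg (kr n ι 1)]
  · have := mul_self_pos.2 h
    nlinarith [mul_self_nonneg (kr n ι 0)]

theorem dtk_ne (ι κ : (Unit ⊕ Fin (2 * n)) ⊕ Fin n) (h : ι ≠ κ) :
    dt (kr n (za n ι)) (kr n (za n κ)) ≠ 0 := by
  have e : dt (kr n (za n ι)) (kr n (za n κ)) =
      ((kv n (za n ι) 0 * kv n (za n κ) 1 - kv n (za n ι) 1 * kv n (za n κ) 0 : ℤ) : ℝ) := by
    unfold dt kr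
    push_cast
    ring
  rw [e]
  intro h0
  have h1 : kv n (za n ι) 0 * kv n (za n κ) 1 - kv n (za n ι) 1 * kv n (za n κ) 0 = 0 := by
    exact_mod_cast h0
  rcases ι with (z | s) | i <;> rcases κ with (z' | s') | i'
  · exact h (by cases z; cases z'; rfl)
  · simp only [za, kv, Matrix.cons_val_zero, Matrix.cons_val_one] at h1
    omega
  · simp only [za, kv, Matrix.cons_val_zero, Matrix.cons_val_one] at h1
    omega
  · simp only [za, kv, Matrix.cons_val_zero, Matrix.cons_val_one] at h1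
    omega
  · simp only [za, kv, Matrix.cons_val_zero, Matrix.cons_val_one] at h1
    have h2 : (2 * (n : ℤ) + 2) * ((s'.val : ℤ) - s.val) = 0 := by linarith
    rcases mul_eq_zero.1 h2 with h3 | h3
    · omega
    · exact h (by
        have : s = s' := Fin.ext (by omega)
        rw [this])
  · simp only [za, kv, Matrix.cons_val_zero, Matrix.cons_val_one] at h1
    have h2 := s.isLt
    have h3 : (2 * (n : ℤ) + 2) * 1 ≤ (2 * (n : ℤ) + 2) * ((i'.val : ℤ) + 1) :=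
      mul_le_mul_of_nonneg_left (by omega) (by omega)
    omega
  · simp only [za, kv, Matrix.cons_val_zero, Matrix.cons_val_one] at h1
    omega
  · simp only [za, kv, Matrix.cons_val_zero, Matrix.cons_val_one] at h1
    have h2 := s'.isLt
    have h3 : (2 * (n : ℤ) + 2) * 1 ≤ ((i.val : ℤ) + 1) * (2 * (n : ℤ) + 2) := by
      rw [mul_comm ((i.val : ℤ) + 1)]
      exact mul_le_mul_of_nonneg_left (by omega) (by omega)
    omega
  · simp only [za, kv, Matrix.cons_val_zero, Matrix.cons_val_one] at h1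
    exact h (by
      have : i = i' := Fin.ext (by omega)
      rw [this])

/-! ### positivity -/

theorem col0 (e : Ix n ≃ Fin m) (X : Mt m) (ι : Ix n) :
    X 0 (e ι) = Gc e X ι * kr n ι 0 - Oc e X ι * kr n ι 1 := by
  have h := (ipk_pos (n := n) ι).ne'
  unfold Gc Oc
  field_simp
  simp only [ip, dt, col]
  ring

theorem col1 (e : Ix n ≃ Fin m) (X : Mt m) (ι : Ix n) :
    X 1 (e ι) = Gc e X ι * kr n ι 1 + Oc e X ι * kr n ι 0 := by
  have h := (ipk_pos (n := n) ι).ne'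
  unfold Gc Oc
  field_simp
  simp only [ip, dt, col]
  ring

theorem dt_col (e : Ix n ≃ Fin m) (X : Mt m) (ι κ : Ix n) :
    dt (col e X ι) (col e X κ) =
      (Gc e X ι * Gc e X κ + Oc e X ι * Oc e X κ) * dt (kr n ι) (kr n κ) +
      (Gc e X ι * Oc e X κ - Oc e X ι * Gc e X κ) * ip (kr n ι) (kr n κ) := by
  have h : dt (col e X ι) (col e X κ) = X 0 (e ι) * X 1 (e κ) - X 1 (e ι) * X 0 (e κ) := rfl
  rw [h, col0 e X ι, col0 e X κ, col1 e X ι, col1 e X κ]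
  unfold dt ip
  ring

/-- abstract inequality for the null Lagrangian -/
theorem nn_bound {Z : Type} [Fintype Z] [DecidableEq Z] (G O : Z → ℝ) (r : Z → Z → ℝ)
    (T : Z → Z → ℝ) (hT : ∀ ι κ, ι ≠ κ → T ι κ =
      G ι * G κ + O ι * O κ + (G ι * O κ - O ι * G κ) * r ι κ) (hT0 : ∀ ι, T ι ι = 0)
    (δ : ℝ) (hδ : 0 < δ) :
    ∑ ι, ∑ κ, T ι κ ≤ (∑ ι, G ι) ^ 2 - ∑ ι, G ι ^ 2 + Fintype.card Z * ∑ ι, O ι ^ 2 +
      δ * Fintype.card Z * ∑ ι, G ι ^ 2 +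
        (∑ ι, ∑ κ, r ι κ ^ 2) / δ * Fintype.card Z * ∑ ι, O ι ^ 2 := by
  set R := ∑ ι, ∑ κ, r ι κ ^ 2 with hR
  have hr : ∀ ι κ, r ι κ ^ 2 ≤ R := by
    intro ι κ
    calc r ι κ ^ 2 ≤ ∑ κ, r ι κ ^ 2 :=
          Finset.single_le_sum (f := fun κ => r ι κ ^ 2) (fun _ _ => by positivity)
            (Finset.mem_univ κ)
      _ ≤ R := Finset.single_le_sum (f := fun ι => ∑ κ, r ι κ ^ 2)
            (fun _ _ => Finset.sum_nonneg fun _ _ => by positivity) (Finset.mem_univ ι)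
  -- termwise
  have h1 : ∀ ι κ, T ι κ ≤ G ι * G κ + (O ι ^ 2 + O κ ^ 2) / 2 +
      (δ * (G ι ^ 2 + G κ ^ 2) / 2 + R / δ * (O ι ^ 2 + O κ ^ 2) / 2) -
      (if ι = κ then G ι ^ 2 else 0) := by
    intro ι κ
    have hR0 : 0 ≤ R := le_trans (by positivity) (hr ι κ)
    by_cases hικ : ι = κ
    · subst hικ
      rw [hT0, if_pos rfl]
      have h2 : 0 ≤ (O ι ^ 2 + O ι ^ 2) / 2 := by positivity
      have h3 : 0 ≤ δ * (G ι ^ 2 + G ι ^ 2) / 2 := by positivity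
      have h4 : 0 ≤ R / δ * (O ι ^ 2 + O ι ^ 2) / 2 := by positivity
      nlinarith
    · rw [hT ι κ hικ, if_neg hικ]
      have key : ∀ g o : ℝ, g * o * r ι κ ≤ δ * g ^ 2 / 2 + R / δ * o ^ 2 / 2 := by
        intro g o
        have h5 : g * o * r ι κ ≤ δ * g ^ 2 / 2 + r ι κ ^ 2 / δ * o ^ 2 / 2 := by
          have h6 : δ * g ^ 2 / 2 + r ι κ ^ 2 / δ * o ^ 2 / 2 - g * o * r ι κ =
              (δ * g - r ι κ * o) ^ 2 / (2 * δ) := by
            field_simp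
            ring
          have h7 : 0 ≤ (δ * g - r ι κ * o) ^ 2 / (2 * δ) := by positivity
          linarith
        have h8 : r ι κ ^ 2 / δ * o ^ 2 ≤ R / δ * o ^ 2 := by
          apply mul_le_mul_of_nonneg_right _ (sq_nonneg o)
          exact div_le_div_of_nonneg_right (hr ι κ) hδ.le
        linarith
      have k1 := key (G ι) (O κ)
      have k2 := key (-(G κ)) (O ι)
      have k3 : O ι * O κ ≤ (O ι ^ 2 + O κ ^ 2) / 2 := by nlinarith [sq_nonneg (O ι - O κ)]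
      have k4 : (-(G κ)) ^ 2 = G κ ^ 2 := by ring
      rw [k4] at k2
      linarith
  calc ∑ ι, ∑ κ, T ι κ ≤ ∑ ι, ∑ κ, (G ι * G κ + (O ι ^ 2 + O κ ^ 2) / 2 +
      (δ * (G ι ^ 2 + G κ ^ 2) / 2 + R / δ * (O ι ^ 2 + O κ ^ 2) / 2) -
      (if ι = κ then G ι ^ 2 else 0)) :=
        Finset.sum_le_sum fun ι _ => Finset.sum_le_sum fun κ _ => h1 ι κ
    _ = _ := by
      have e1 : ∑ ι, ∑ κ, G ι * G κ = (∑ ι, G ι) ^ 2 := by
        rw [pow_two, Finset.sum_mul_sum]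
      have e2 : ∀ f : Z → ℝ, ∑ ι : Z, ∑ κ : Z, (f ι + f κ) = 2 * (Fintype.card Z * ∑ ι, f ι) := by
        intro f
        simp only [Finset.sum_add_distrib, Finset.sum_const, Finset.card_univ, nsmul_eq_mul]
        rw [← Finset.mul_sum]
        ring
      have e3 : ∑ ι : Z, ∑ κ : Z, (if ι = κ then G ι ^ 2 else 0) = ∑ ι, G ι ^ 2 := by
        refine Finset.sum_congr rfl fun ι _ => ?_
        rw [Finset.sum_ite_eq]
        simp
      have e4 : ∀ ι κ, G ι * G κ + (O ι ^ 2 + O κ ^ 2) / 2 +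
          (δ * (G ι ^ 2 + G κ ^ 2) / 2 + R / δ * (O ι ^ 2 + O κ ^ 2) / 2) -
          (if ι = κ then G ι ^ 2 else 0) =
          G ι * G κ + (1 / 2 + R / δ / 2) * (O ι ^ 2 + O κ ^ 2) + δ / 2 * (G ι ^ 2 + G κ ^ 2) -
          (if ι = κ then G ι ^ 2 else 0) := by
        intro ι κ
        ring
      simp only [e4]
      simp only [Finset.sum_sub_distrib, e3]
      have e5 : ∑ ι : Z, ∑ κ : Z, (G ι * G κ + (1 / 2 + R / δ / 2) * (O ι ^ 2 + O κ ^ 2) +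
          δ / 2 * (G ι ^ 2 + G κ ^ 2)) = (∑ ι, ∑ κ, G ι * G κ) +
          (1 / 2 + R / δ / 2) * (∑ ι : Z, ∑ κ : Z, (O ι ^ 2 + O κ ^ 2)) +
          δ / 2 * ∑ ι : Z, ∑ κ : Z, (G ι ^ 2 + G κ ^ 2) := by
        simp only [Finset.mul_sum, ← Finset.sum_add_distrib]
      rw [e5, e1, e2 (fun ι => O ι ^ 2), e2 (fun ι => G ι ^ 2)]
      ring

theorem pf_bound (hn : 1 ≤ n) (σ : ℕ → ℝ) (hσ : Sgn σ) (a b : Fin n → ℝ) :
    -((n : ℝ) ^ 2 / 4 * W682.TW.sq a + W682.TW.sq b) ≤ pf n σ a b := by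
  have hn0 : (0 : ℝ) < n := by exact_mod_cast hn
  unfold pf W682.TW.sq
  have h1 : ∀ i j : Fin n, -((n : ℝ) / 4 * a i ^ 2 + 1 / n * b j ^ 2) ≤
      σ (i.val + j.val) * a i * b j := by
    intro i j
    have h2 : (n : ℝ) / 4 * a i ^ 2 + 1 / n * b j ^ 2 + a i * b j =
        ((n : ℝ) * a i + 2 * b j) ^ 2 / (4 * n) := by
      field_simp
      ring
    have h3 : (n : ℝ) / 4 * a i ^ 2 + 1 / n * b j ^ 2 - a i * b j =
        ((n : ℝ) * a i - 2 * b j) ^ 2 / (4 * n) := by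
      field_simp
      ring
    have h4 : 0 ≤ ((n : ℝ) * a i + 2 * b j) ^ 2 / (4 * n) := by positivity
    have h5 : 0 ≤ ((n : ℝ) * a i - 2 * b j) ^ 2 / (4 * n) := by positivity
    rcases hσ (i.val + j.val) with h | h
    · rw [h]; linarith
    · rw [h]; linarith
  calc -((n : ℝ) ^ 2 / 4 * ∑ i, a i ^ 2 + ∑ i, b i ^ 2) =
      ∑ i : Fin n, ∑ j : Fin n, -((n : ℝ) / 4 * a i ^ 2 + 1 / n * b j ^ 2) := by
        simp only [Finset.sum_neg_distrib, Finset.sum_add_distrib, Finset.sum_const,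
          Finset.card_univ, Fintype.card_fin, nsmul_eq_mul, ← Finset.mul_sum]
        field_simp
    _ ≤ _ := Finset.sum_le_sum fun i _ => Finset.sum_le_sum fun j _ => h1 i j

theorem final_real {c D R g o θ S sa sb k NNv pfv χ Λ T : ℝ} (hc0 : 0 < c) (hD0 : 0 < D)
    (hR0 : 0 ≤ R) (hg0 : 0 ≤ g) (ho0 : 0 ≤ o) (hNN : NNv = -c * T)
    (hb : T ≤ θ ^ 2 - g + D * o + 1 / (4 * D) * D * g + R / (1 / (4 * D)) * D * o)
    (hpf : -(c / 4 * sa + sb) ≤ pfv) (hsqa : sa ≤ g) (hsa0 : 0 ≤ sa) (hsb0 : 0 ≤ sb)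
    (hSO : o ≤ S) (hΛ : c ≤ Λ) (hχ : χ = 0 ∨ χ = 1)
    (hk : c * D + c * (R / (1 / (4 * D)) * D) + 1 ≤ k) :
    c / 2 * g + 5 * sb + S ≤ Λ * (θ * θ) + χ * pfv + 6 * sa + 6 * sb + k * S + NNv := by
  have hS0 : 0 ≤ S := ho0.trans hSO
  have h1 : c * T ≤ c * (θ ^ 2 - g + D * o + 1 / (4 * D) * D * g +
      R / (1 / (4 * D)) * D * o) := mul_le_mul_of_nonneg_left hb hc0.le
  have h2 : 1 / (4 * D) * D * g = g / 4 := by
    field_simp
  rw [h2] at h1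
  have hχpf : -(c / 4 * sa + sb) ≤ χ * pfv := by
    rcases hχ with h | h
    · rw [h, zero_mul]
      have : 0 ≤ c / 4 * sa + sb := by positivity
      linarith
    · rw [h, one_mul]
      exact hpf
  have hK : (c * D + c * (R / (1 / (4 * D)) * D)) * o ≤ (k - 1) * S := by
    have h1 : 0 ≤ c * D + c * (R / (1 / (4 * D)) * D) := by positivity
    calc (c * D + c * (R / (1 / (4 * D)) * D)) * o ≤
        (c * D + c * (R / (1 / (4 * D)) * D)) * S := mul_le_mul_of_nonneg_left hSO h1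
      _ ≤ (k - 1) * S := mul_le_mul_of_nonneg_right (by linarith) hS0
  have h3 : c * (θ * θ) ≤ Λ * (θ * θ) := mul_le_mul_of_nonneg_right hΛ (mul_self_nonneg θ)
  have h4 : c / 4 * sa ≤ c / 4 * g := mul_le_mul_of_nonneg_left hsqa (by positivity)
  have h5 : θ ^ 2 = θ * θ := by ring
  rw [h5] at h1
  rw [hNN]
  linarith

theorem qd_pos (hn : 1 ≤ n) (e : Ix n ≃ Fin m) (σ : ℕ → ℝ) (hσ : Sgn σ) (Λ χ : ℝ)
    (hΛ : (n : ℝ) ^ 2 ≤ Λ) (hχ : χ = 0 ∨ χ = 1) :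
    ∃ k₀ : ℝ, ∀ k : ℝ, k₀ ≤ k → ∀ X : Mt m, X ≠ 0 → 0 < qd e σ Λ k ((n : ℝ) ^ 2) χ X := by
  have hn0 : (0 : ℝ) < n := by exact_mod_cast hn
  have hc0 : 0 < (n : ℝ) ^ 2 := by positivity
  obtain ⟨D, hD⟩ : ∃ D : ℝ, D = (Fintype.card ((Unit ⊕ Fin (2 * n)) ⊕ Fin n) : ℝ) := ⟨_, rfl⟩
  have hD0 : 0 < D := by
    rw [hD]
    have : 0 < Fintype.card ((Unit ⊕ Fin (2 * n)) ⊕ Fin n) := Fintype.card_pos_iff.2
      ⟨.inl (.inl ())⟩
    exact_mod_cast this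
  obtain ⟨r, hr⟩ : ∃ r : (Unit ⊕ Fin (2 * n)) ⊕ Fin n → (Unit ⊕ Fin (2 * n)) ⊕ Fin n → ℝ,
    ∀ ι κ, r ι κ = ip (kr n (za n ι)) (kr n (za n κ)) / dt (kr n (za n ι)) (kr n (za n κ)) :=
    ⟨_, fun _ _ => rfl⟩
  obtain ⟨R, hR⟩ : ∃ R : ℝ, R = ∑ ι, ∑ κ, r ι κ ^ 2 := ⟨_, rfl⟩
  have hR0 : 0 ≤ R := by
    rw [hR]
    exact Finset.sum_nonneg fun _ _ => Finset.sum_nonneg fun _ _ => sq_nonneg _
  refine ⟨(n : ℝ) ^ 2 * D + (n : ℝ) ^ 2 * (R / (1 / (4 * D)) * D) + 1, fun k hk X hX => ?_⟩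
  by_contra hcon
  push Not at hcon
  obtain ⟨G, hG⟩ : ∃ G : (Unit ⊕ Fin (2 * n)) ⊕ Fin n → ℝ, ∀ ι, G ι = Gc e X (za n ι) :=
    ⟨_, fun _ => rfl⟩
  obtain ⟨O, hO⟩ : ∃ O : (Unit ⊕ Fin (2 * n)) ⊕ Fin n → ℝ, ∀ ι, O ι = Oc e X (za n ι) :=
    ⟨_, fun _ => rfl⟩
  have hth : (st e X).1 = ∑ ι, G ι := by
    rw [Fintype.sum_sum_type]
    simp only [hG]
    rfl
  have hb := nn_bound G O r (fun ι κ => dt (col e X (za n ι)) (col e X (za n κ)) /
      dt (kr n (za n ι)) (kr n (za n κ))) (by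
        intro ι κ hικ
        have hne := dtk_ne (n := n) ι κ hικ
        rw [hG, hG, hO, hO, hr]
        rw [dt_col, add_div, mul_div_assoc, div_self hne, mul_one, mul_div_assoc]) (by
        intro ι
        have : dt (col e X (za n ι)) (col e X (za n ι)) = 0 := by
          unfold dt
          ring
        rw [this, zero_div]) (1 / (4 * D)) (by positivity)
  rw [← hR, ← hD] at hb
  have hsqa : W682.TW.sq (st e X).2.1 ≤ ∑ ι, G ι ^ 2 := by
    rw [Fintype.sum_sum_type (f := fun ι => G ι ^ 2)]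
    have h1 : 0 ≤ ∑ x : Unit ⊕ Fin (2 * n), G (Sum.inl x) ^ 2 :=
      Finset.sum_nonneg fun _ _ => sq_nonneg _
    have h2 : W682.TW.sq (st e X).2.1 = ∑ x : Fin n, G (Sum.inr x) ^ 2 := by
      simp only [hG]
      rfl
    rw [h2]
    linarith
  have hsqa0 : 0 ≤ W682.TW.sq (st e X).2.1 := Finset.sum_nonneg fun _ _ => sq_nonneg _
  have hsqb0 : 0 ≤ W682.TW.sq (st e X).2.2 := Finset.sum_nonneg fun _ _ => sq_nonneg _
  have hSO : ∑ ι, O ι ^ 2 ≤ SO e X := by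
    unfold SO
    rw [Fintype.sum_sum_type (f := fun ι : Ix n => Oc e X ι ^ 2),
      Fintype.sum_sum_type (f := fun ι : Fin n ⊕ Fin n => Oc e X (Sum.inr ι) ^ 2),
      Fintype.sum_sum_type (f := fun ι => O ι ^ 2)]
    have h1 : 0 ≤ ∑ x : Fin n, Oc e X (Sum.inr (Sum.inr x)) ^ 2 :=
      Finset.sum_nonneg fun _ _ => sq_nonneg _
    have h2 : ∑ x : Unit ⊕ Fin (2 * n), O (Sum.inl x) ^ 2 =
      ∑ x : Unit ⊕ Fin (2 * n), Oc e X (Sum.inl x) ^ 2 := by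
      simp only [hO]
      rfl
    have h3 : ∑ x : Fin n, O (Sum.inr x) ^ 2 =
      ∑ x : Fin n, Oc e X (Sum.inr (Sum.inl x)) ^ 2 := by
      simp only [hO]
      rfl
    rw [h2, h3]
    linarith
  have hO0 : 0 ≤ ∑ ι, O ι ^ 2 := Finset.sum_nonneg fun _ _ => sq_nonneg _
  have hG0 : 0 ≤ ∑ ι, G ι ^ 2 := Finset.sum_nonneg fun _ _ => sq_nonneg _
  have hq := final_real (NNv := NN e ((n : ℝ) ^ 2) X) hc0 hD0 hR0 hG0 hO0 rfl hb
    (pf_bound hn σ hσ (st e X).2.1 (st e X).2.2) hsqa hsqa0 hsqb0 hSO hΛ hχ hk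
  rw [← hth] at hq
  change _ ≤ qd e σ Λ k ((n : ℝ) ^ 2) χ X at hq
  have hS0 : 0 ≤ SO e X := hO0.trans hSO
  have h1 : 0 ≤ (n : ℝ) ^ 2 / 2 * ∑ ι, G ι ^ 2 := mul_nonneg (by positivity) hG0
  have h2 : (n : ℝ) ^ 2 / 2 * ∑ ι, G ι ^ 2 = 0 := by linarith
  have hsb : W682.TW.sq (st e X).2.2 = 0 := by linarith
  have hS : SO e X = 0 := by linarith
  have hg : ∑ ι, G ι ^ 2 = 0 := by
    rcases mul_eq_zero.1 h2 with h | h
    · exfalso
      linarith
    · exact h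
  have hGz : ∀ ι : Ix n, Gc e X ι = 0 := by
    have h1 : ∀ ι, Gc e X (za n ι) = 0 := by
      intro ι
      have h := (Finset.sum_eq_zero_iff_of_nonneg (fun _ _ => sq_nonneg _)).1 hg ι
        (Finset.mem_univ _)
      rw [← hG]
      exact (pow_eq_zero_iff two_ne_zero).1 h
    have h2 : ∀ j : Fin n, Gc e X (.inr (.inr j)) = 0 := by
      intro j
      have h := (Finset.sum_eq_zero_iff_of_nonneg (fun _ _ => sq_nonneg _)).1 hsb j
        (Finset.mem_univ _)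
      exact (pow_eq_zero_iff two_ne_zero).1 h
    intro ι
    rcases ι with z | (i | j)
    · exact h1 (.inl z)
    · exact h1 (.inr i)
    · exact h2 j
  have hOz : ∀ ι : Ix n, Oc e X ι = 0 := by
    intro ι
    have h1 : Oc e X ι ^ 2 = 0 :=
      (Finset.sum_eq_zero_iff_of_nonneg (fun _ _ => sq_nonneg _)).1 hS ι (Finset.mem_univ _)
    exact (pow_eq_zero_iff two_ne_zero).1 h1
  apply hX
  ext i j
  obtain ⟨ι, rfl⟩ := e.surjective j
  have h0 : X 0 (e ι) = 0 := by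
    rw [col0 e X ι, hGz ι, hOz ι]
    ring
  have h1' : X 1 (e ι) = 0 := by
    rw [col1 e X ι, hGz ι, hOz ι]
    ring
  fin_cases i
  · exact h0
  · exact h1'

theorem main : S_POS := by
  intro n m e σ Λ χ hn hσ hΛ hχ
  obtain ⟨k₀, hk₀⟩ := qd_pos hn e σ hσ Λ χ hΛ hχ
  refine ⟨k₀, fun k hk => ?_⟩
  obtain ⟨B, hB, hB'⟩ := isQ_qd e σ Λ k ((n : ℝ) ^ 2) χ
  obtain ⟨l, hl⟩ := (isL_th e).cmul (-(2 * Λ * χ))
  have hl' : ∀ F : Mt m, -(2 * Λ * χ) * (st e F).1 = l F := hl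
  refine ⟨B, l, Λ * χ ^ 2, hB, fun X hX => ?_, fun F => ?_⟩
  · rw [← hB']
    exact hk₀ k hk X hX
  · rw [wm_eq, hB', hl']

end Pool.Agent.W160.TW.Pos
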